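import Mathlib
import Pool.Agent.Helper15.PotDense

/-!
# Theorem M (mixed products): definitions

General Calabi-Yau complete intersections of `l` ample divisors in a product of `k` projective
spaces of dimensions `N r`, `l ≤ N r ≤ l + 1`.

* `Pt N S`: the homogeneous coordinates of a point of the product.
* `Tn N e`: the indices of a (not symmetric) tensor of multidegree `e`; `Tx N d`: of all `l` forms.
* `tv a X`: the tensor `a` at the vectors `X r t`; `fv a x`: the form; `dv a x j b`: the derivative
  of the form at `x` in the direction `b` of the factor `j`.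
* `Fm c x i`, `dF c x j b i`: the same for the forms with the coefficients `c`.
* `Ty N d`: the numerical conditions.
* `GenPt K c r x`: `x` is a zero, and the coordinates of the factors other than `r` are generic.
* `Nice c x`: the conclusion of the genericity theorem (block J).
* `Bf K x J`: the field generated by the coordinates of the factors which are not in `J`.
* `FullPt K c x`: a zero in the chart, generic for each factor: the generic point of the variety.
* `Good K I e`: the conclusion for the ideal `I`.
-/

set_option autoImplicit false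

namespace Pool.Agent.Helper47.M

open MvPolynomial AlgebraicGeometry CategoryTheory Pool.Agent.Helper15

variable {k l : ℕ}

/-- The homogeneous coordinates of a point of the product. -/
abbrev Pt (N : Fin k → ℕ) (S : Type*) := ∀ r, Fin (N r + 1) → S

/-- The indices of a tensor of multidegree `e`. -/
abbrev Tn (N : Fin k → ℕ) (e : Fin k → ℕ) := ∀ r, Fin (e r) → Fin (N r + 1)

/-- The indices of the coefficients of `l` forms. -/
abbrev Tx (N : Fin k → ℕ) (d : Fin l → Fin k → ℕ) := Σ i : Fin l, Tn N (d i)

/-- The affine coordinates. -/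
abbrev Vr (N : Fin k → ℕ) := Σ r : Fin k, Fin (N r)

/-- The numerical conditions. -/
structure Ty (N : Fin k → ℕ) (d : Fin l → Fin k → ℕ) : Prop where
  pos : ∀ i r, 0 < d i r
  sum : ∀ r, ∑ i, d i r = N r + 1
  dim : ∀ r, N r = l ∨ N r = l + 1

section defs

variable {N : Fin k → ℕ} {e : Fin k → ℕ} {d : Fin l → Fin k → ℕ} {S : Type*} [CommRing S]

/-- The value of a tensor at vectors. -/
def tv (a : Tn N e → S) (X : ∀ r, Fin (e r) → Fin (N r + 1) → S) : S :=
  ∑ m : Tn N e, a m * ∏ r, ∏ t, X r t (m r t)

/-- The value of the form. -/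
def fv (a : Tn N e → S) (x : Pt N S) : S := tv a fun r _ => x r

/-- The arguments `x` with `b` at the place `(j, t)`. -/
def slot (e : Fin k → ℕ) (x : Pt N S) (j : Fin k) (t : Fin (e j)) (b : Fin (N j + 1) → S) :
    ∀ r, Fin (e r) → Fin (N r + 1) → S :=
  Function.update (fun r _ => x r) j (Function.update (fun _ => x j) t b)

/-- The derivative of the form at `x` in the direction `b` of the factor `j`. -/
def dv (a : Tn N e → S) (x : Pt N S) (j : Fin k) (b : Fin (N j + 1) → S) : S :=
  ∑ t : Fin (e j), tv a (slot e x j t b)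

/-- The `l` forms. -/
def Fm (c : Tx N d → S) (x : Pt N S) (i : Fin l) : S := fv (fun m => c ⟨i, m⟩) x

/-- The derivatives of the forms in the direction `b` of the factor `j`. -/
def dF (c : Tx N d → S) (x : Pt N S) (j : Fin k) (b : Fin (N j + 1) → S) (i : Fin l) : S :=
  dv (fun m => c ⟨i, m⟩) x j b

end defs

section fields

variable {N : Fin k → ℕ} {d : Fin l → Fin k → ℕ}

/-- A zero such that the coordinates of the factors other than `r` are independent. -/
structure GenPt (K : Type) {Ω : Type} [Field K] [Field Ω] [Algebra K Ω] (c : Tx N d → K)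
    (r : Fin k) (x : Pt N Ω) : Prop where
  eq : ∀ i, Fm (fun e => algebraMap K Ω (c e)) x i = 0
  one : ∀ j, j ≠ r → x j 0 = 1
  norm : ∃ i, x r i = 1
  ind : AlgebraicIndependent K (fun q : {q : Vr N // q.1 ≠ r} => x q.1.1 q.1.2.succ)

/-- Nondegenerate points. `j1`: for a factor with `N j = l + 1` the Jacobian matrix has rank `l`.
`j2`, `j3`: for a factor with `N j = l` the linear forms have rank `l - 1`, and no line through
`x j` is in the fibre. -/
structure Nice {Ω : Type} [Field Ω] (c : Tx N d → Ω) (x : Pt N Ω) : Prop where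
  j1 : ∀ j, N j = l + 1 → ∀ lam : Fin l → Ω, (∀ b, ∑ i, lam i * dF c x j b i = 0) → lam = 0
  j2 : ∀ j, N j = l → ∀ i0, d i0 j = 2 → ∀ lam : Fin l → Ω, lam i0 = 0 →
    (∀ b, ∑ i, lam i * dF c x j b i = 0) → lam = 0
  j3 : ∀ j, N j = l → ∀ i0, d i0 j = 2 → ∀ b : Fin (N j + 1) → Ω, b 0 = 0 →
    (∀ i, dF c x j b i = 0) → Fm c (Function.update x j b) i0 = 0 → b = 0

/-- The conclusion of block J for the coefficients `c`. -/
def AllNice (K : Type) [Field K] (c : Tx N d → K) : Prop :=
  ∀ r, N r = l + 1 → ∀ (Ω : Type) [Field Ω] [Algebra K Ω] (x : Pt N Ω), GenPt K c r x →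
    Nice (fun e => algebraMap K Ω (c e)) x ∧ ¬ (x r 0 = 0 ∧ x r 1 = 0)

/-- The field generated by the coordinates of the factors which are not in `J`. -/
def Bf (K : Type) {E : Type} [Field K] [Field E] [Algebra K E] (x : Pt N E) (J : Set (Fin k)) :
    IntermediateField K E :=
  IntermediateField.adjoin K {y | ∃ j, j ∉ J ∧ ∃ e, y = x j e}

/-- The generic point of the variety (in the chart). -/
structure FullPt (K : Type) {E : Type} [Field K] [Field E] [Algebra K E] (c : Tx N d → K)
    (x : Pt N E) : Prop where
  eq : ∀ i, Fm (fun e => algebraMap K E (c e)) x i = 0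
  one : ∀ j, x j 0 = 1
  ind : ∀ r, AlgebraicIndependent K (fun q : {q : Vr N // q.1 ≠ r} => x q.1.1 q.1.2.succ)
  tr : ∀ r, N r = l + 1 → ∃ e, Transcendental (Bf K x {r}) (x r e)
  top : Bf K x ∅ = ⊤

theorem FullPt.gen {K E : Type} [Field K] [Field E] [Algebra K E] {c : Tx N d → K} {x : Pt N E}
    (h : FullPt K c x) (r : Fin k) : GenPt K c r x where
  eq := h.eq
  one j _ := h.one j
  norm := ⟨0, h.one r⟩
  ind := h.ind r

/-- The coordinates in the chart. -/
noncomputable def ch (K : Type*) [Field K] (N : Fin k → ℕ) : Pt N (MvPolynomial (Vr N) K) :=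
  fun r => Fin.cons 1 fun j => X ⟨r, j⟩

/-- The ideal of the zero locus in the chart (tensor coordinates). -/
noncomputable def idl {K : Type*} [Field K] (c : Tx N d → K) : Ideal (MvPolynomial (Vr N) K) :=
  Ideal.span (Set.range fun i => Fm (fun e => C (c e)) (ch K N) i)

/-- `P` is a prime ideal which contains `I`, has a residue ring of transcendence degree `e`, and
contains no nonzero polynomial which does not involve the coordinates of some one factor. -/
structure IsDom {K : Type} [Field K] (I : Ideal (MvPolynomial (Vr N) K)) (e : ℕ)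
    (P : Ideal (MvPolynomial (Vr N) K)) : Prop where
  prime : P.IsPrime
  le : I ≤ P
  elim : ∀ r : Fin k, ∀ Φ ∈ P, (∀ v ∈ Φ.vars, v.1 ≠ r) → Φ = 0
  trdeg : Algebra.trdeg K (MvPolynomial (Vr N) K ⧸ P) = (e : ℕ)

/-- The conclusion of the theorem for the ideal `I` (`e` is the dimension). -/
def Good {K : Type} [Field K] (I : Ideal (MvPolynomial (Vr N) K)) (e : ℕ) : Prop :=
  (∃ P, IsDom I e P) ∧ ∀ P, IsDom I e P →
    ∀ (X : Scheme.{0}) (s : X ⟶ Spec (CommRingCat.of K)) [IrreducibleSpace X],
      BirationalOver K X (Spec (CommRingCat.of (MvPolynomial (Vr N) K ⧸ P))) s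
        (Spec.map (CommRingCat.ofHom (algebraMap K (MvPolynomial (Vr N) K ⧸ P)))) →
      PotentiallyDense K X s

/-- The monomials of multidegree `e`. -/
abbrev Mono (N : Fin k → ℕ) (e : Fin k → ℕ) := ∀ r, Sym (Fin (N r + 1)) (e r)

/-- The form of multidegree `e` with the coefficients `a`, in the chart. -/
noncomputable def form {K : Type*} [Field K] (e : Fin k → ℕ) (a : Mono N e → K) :
    MvPolynomial (Vr N) K :=
  ∑ s : Mono N e, C (a s) * ∏ r, ((s r : Multiset (Fin (N r + 1))).map (ch K N r)).prod

/-- The ideal of the complete intersection. -/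
noncomputable def ideal {K : Type*} [Field K] (d : Fin l → Fin k → ℕ)
    (a : (Σ i, Mono N (d i)) → K) : Ideal (MvPolynomial (Vr N) K) :=
  Ideal.span (Set.range fun i => form (d i) fun s => a ⟨i, s⟩)

end fields

section places

variable {K E : Type} [Field K] [Field E] [Algebra K E]

/-- A place of `E` with values in `R` which is finite on `B`. -/
structure Place (B : IntermediateField K E) (R : Type) [Field R] [Algebra K R] where
  /-- the valuation ring -/
  O : ValuationSubring E
  /-- the residue map -/
  pi : O →+* R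
  loc : ∀ a : O, pi a ≠ 0 → IsUnit a
  inc : ∀ b ∈ B, b ∈ O
  alg : ∀ a : K, pi ⟨algebraMap K E a, inc _ (B.algebraMap_mem a)⟩ = algebraMap K R a

variable {B : IntermediateField K E} {R : Type} [Field R] [Algebra K R]

open Classical in
/-- The residue of an element (`0` if it is not finite). -/
noncomputable def Place.red (v : Place B R) (y : E) : R :=
  if h : y ∈ v.O then v.pi ⟨y, h⟩ else 0

/-- The residue map on `B`. -/
def Place.res (v : Place B R) : B →+* R where
  toFun b := v.pi ⟨b, v.inc b b.2⟩
  map_one' := v.pi.map_one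
  map_mul' b b' := v.pi.map_mul ⟨b, v.inc b b.2⟩ ⟨b', v.inc b' b'.2⟩
  map_zero' := v.pi.map_zero
  map_add' b b' := v.pi.map_add ⟨b, v.inc b b.2⟩ ⟨b', v.inc b' b'.2⟩

end places

end Pool.Agent.Helper47.M
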