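import Mathlib
import Pool.Agent.Helper45.MX.Nat

/-!
# Theorem M: natural coordinates, for any property of the ideal
-/

set_option autoImplicit false

namespace Pool.Agent.Helper47.M

open MvPolynomial AlgebraicGeometry CategoryTheory Pool.Agent.Helper15

variable {k l : ℕ} {N : Fin k → ℕ} {d : Fin l → Fin k → ℕ}

/-- The natural statement from the statement in tensor coordinates, for any property. -/
theorem natural_pred
    (Q : ∀ (K : Type) [Field K] [NumberField K], Ideal (MvPolynomial (Vr N) K) → Prop)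
    (hmain : ∃ Δ : MvPolynomial (Tx N d) ℚ, Δ ≠ 0 ∧ ∀ (K : Type) [Field K] [NumberField K]
      (c : Tx N d → K), aeval c Δ ≠ 0 → Q K (idl c)) :
    ∃ Δ : MvPolynomial (Σ i, Mono N (d i)) ℚ, Δ ≠ 0 ∧ ∀ (K : Type) [Field K] [NumberField K]
      (a : (Σ i, Mono N (d i)) → K), aeval a Δ ≠ 0 → Q K (ideal d a) := by
  classical
  refine Pool.Agent.Helper92.CI.transfer (Helper45.MX.sg (N := N) (d := d))
    Helper45.MX.sg_surjective (fun _ => 1) (fun _ => one_ne_zero)
    (fun K _ _ c => Q K (ideal d c)) ?_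
  obtain ⟨Δ, hΔ, H⟩ := hmain
  refine ⟨Δ, hΔ, fun K _ _ c hc => ?_⟩
  rw [Helper45.MX.ideal_eq c]
  exact H K c hc

/-- The conclusion of the theorem for a prime ideal. -/
structure Full {K : Type} [Field K] (I : Ideal (MvPolynomial (Vr N) K)) (e : ℕ) : Prop where
  prime : I.IsPrime
  elim : ∀ r : Fin k, ∀ Φ ∈ I, (∀ v ∈ Φ.vars, v.1 ≠ r) → Φ = 0
  trdeg : Algebra.trdeg K (MvPolynomial (Vr N) K ⧸ I) = (e : ℕ)
  dense : ∀ (X : Scheme.{0}) (s : X ⟶ Spec (CommRingCat.of K)) [IrreducibleSpace X],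
    BirationalOver K X (Spec (CommRingCat.of (MvPolynomial (Vr N) K ⧸ I))) s
      (Spec.map (CommRingCat.ofHom (algebraMap K (MvPolynomial (Vr N) K ⧸ I)))) →
    PotentiallyDense K X s

theorem full_of_good {K : Type} [Field K] {I : Ideal (MvPolynomial (Vr N) K)} {e : ℕ}
    (h : IsDom I e I) (hg : Good I e) : Full I e :=
  ⟨h.prime, h.elim, h.trdeg, hg.2 I h⟩

end Pool.Agent.Helper47.M
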