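import Mathlib
import Pool.Agent.Helper47.M.Defs
import Pool.Agent.Helper15.WE23
import Pool.Agent.Helper97.M.BfInf
import Pool.Agent.Helper24.MP.Sig

/-!
# Theorem M: potential density from the field theoretic facts
-/

set_option autoImplicit false

namespace Pool.Agent.Helper47.M

open MvPolynomial AlgebraicGeometry CategoryTheory Pool.Agent Pool.Agent.Helper15
open Pool.Agent.Helper97.M (adjoin_inf)

variable {k l : ℕ} {N : Fin k → ℕ} {d : Fin l → Fin k → ℕ}

theorem mem_bot_of_all {K E ι : Type} [Field K] [Field E] [Algebra K E] [Finite ι] (v : ι → E)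
    (hv : AlgebraicIndependent K v) (htop : IntermediateField.adjoin K (Set.range v) = ⊤) (y : E)
    (h : ∀ i, y ∈ IntermediateField.adjoin K (v '' {i}ᶜ)) :
    y ∈ (⊥ : IntermediateField K E) := by
  classical
  have := Fintype.ofFinite ι
  have key : ∀ S : Finset ι, y ∈ IntermediateField.adjoin K (v '' (S : Set ι)ᶜ) := by
    intro S
    induction S using Finset.induction_on with
    | empty =>
      rw [Finset.coe_empty, Set.compl_empty, Set.image_univ, htop]
      exact IntermediateField.mem_top
    | insert a S _ ih =>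
      have h1 := adjoin_inf v hv _ _ y (h a) ih
      rwa [← Set.compl_union, Set.singleton_union, ← Finset.coe_insert] at h1
  have h1 := key Finset.univ
  rwa [Finset.coe_univ, Set.compl_univ, Set.image_empty, IntermediateField.adjoin_empty] at h1

/-- A purely transcendental field. -/
theorem pd_rational {K E : Type} [Field K] [NumberField K] [Field E] [Algebra K E] {ι : Type}
    [Finite ι] (v : ι → E) (hv : AlgebraicIndependent K v)
    (htop : IntermediateField.adjoin K (Set.range v) = ⊤)
    (A : Type) [CommRing A] [Algebra K A] [Algebra.FiniteType K A] (f : A →ₐ[K] E)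
    (hf : Function.Injective f) :
    PotentiallyDense K (Spec (CommRingCat.of A))
      (Spec.map (CommRingCat.ofHom (algebraMap K A))) := by
  classical
  have := Fintype.ofFinite ι
  refine WE.main K E ?_ (fun i => IntermediateField.adjoin K (v '' {i}ᶜ)) (fun i => Or.inl ?_)
    (fun e he => ?_) A f hf
  · rw [← htop]
    exact ⟨Finset.univ.image v, by simp⟩
  · have htr : Transcendental (IntermediateField.adjoin K (v '' {i}ᶜ)) (v i) := by
      rw [IntermediateField.transcendental_adjoin_iff]
      exact hv.transcendental_adjoin (by simp)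
    refine ⟨v i ^ 2, v i, Polynomial.X, ?_, Polynomial.separable_X, ?_, ?_, ?_, ?_⟩
    · exact htr.pow (by norm_num)
    · rw [Polynomial.natDegree_X]
    · rw [Polynomial.natDegree_X]
      norm_num
    · rw [Polynomial.aeval_X]
    · rw [eq_top_iff]
      intro y _
      have hy : y ∈ IntermediateField.adjoin K (Set.range v) := by
        rw [htop]
        exact IntermediateField.mem_top
      have hle : IntermediateField.adjoin K (Set.range v) ≤
          (IntermediateField.adjoin (IntermediateField.adjoin K (v '' {i}ᶜ))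
            {v i ^ 2, v i}).restrictScalars K := by
        rw [IntermediateField.adjoin_le_iff]
        rintro _ ⟨j, rfl⟩
        by_cases hj : j = i
        · subst hj
          exact IntermediateField.subset_adjoin _ _ (by simp)
        · have h1 : v j ∈ IntermediateField.adjoin K (v '' {i}ᶜ) :=
            IntermediateField.subset_adjoin _ _ ⟨j, hj, rfl⟩
          exact (IntermediateField.adjoin (IntermediateField.adjoin K (v '' {i}ᶜ))
            {v i ^ 2, v i}).algebraMap_mem ⟨v j, h1⟩
      exact hle hy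
  · have h1 := mem_bot_of_all v hv htop e he
    rw [IntermediateField.mem_bot] at h1
    obtain ⟨a, rfl⟩ := h1
    exact isAlgebraic_algebraMap a

variable {K E : Type} [Field K] [Field E] [Algebra K E]

theorem bf_mono (x : Pt N E) {J J' : Set (Fin k)} (h : J ⊆ J') : Bf K x J' ≤ Bf K x J := by
  refine IntermediateField.adjoin.mono _ _ _ ?_
  rintro _ ⟨j, hj, e, rfl⟩
  exact ⟨j, fun hc => hj (h hc), e, rfl⟩

/-- An automorphism which fixes the coordinates outside `J` fixes `Bf K x J`. -/
theorem bf_fix (x : Pt N E) (J : Set (Fin k)) (σ : E ≃ₐ[K] E)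
    (hσ : ∀ j, j ∉ J → ∀ i, σ (x j i) = x j i) (φ : E) (h : φ ∈ Bf K x J) : σ φ = φ := by
  have key : Bf K x J ≤ IntermediateField.fixedField (Subgroup.zpowers σ) := by
    unfold Bf
    rw [IntermediateField.adjoin_le_iff]
    rintro _ ⟨j, hj, e, rfl⟩
    rw [SetLike.mem_coe, IntermediateField.mem_fixedField_iff]
    intro τ hτ
    obtain ⟨n, rfl⟩ := Subgroup.mem_zpowers_iff.mp hτ
    have h1 : σ (x j e) = x j e := hσ j hj e
    have h2 : σ ∈ MulAction.stabilizer (E ≃ₐ[K] E) (x j e) := h1
    exact (MulAction.stabilizer (E ≃ₐ[K] E) (x j e)).zpow_mem h2 n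
  have h3 := key h
  rw [IntermediateField.mem_fixedField_iff] at h3
  exact h3 σ (Subgroup.mem_zpowers σ)

theorem bf_univ (x : Pt N E) : Bf K x Set.univ = ⊥ := by
  unfold Bf
  rw [eq_bot_iff, IntermediateField.adjoin_le_iff]
  rintro _ ⟨j, hj, _⟩
  exact absurd (Set.mem_univ j) hj

theorem mem_bot_of_pairs (c : Tx N d → K) (x : Pt N E) (hx : FullPt K c x) (r : Fin k) (e : E)
    (h0 : e ∈ Bf K x {r}) (h : ∀ j, j ≠ r → e ∈ Bf K x {r, j}) :
    e ∈ (⊥ : IntermediateField K E) := by
  classical
  have key : ∀ S : Finset (Fin k), e ∈ Bf K x ({r} ∪ (S : Set (Fin k))) := by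
    intro S
    induction S using Finset.induction_on with
    | empty =>
      rw [Finset.coe_empty, Set.union_empty]
      exact h0
    | insert a S _ ih =>
      by_cases ha : a = r
      · subst ha
        rw [Finset.coe_insert, Set.insert_eq, ← Set.union_assoc, Set.union_self]
        exact ih
      · have h1 := Helper97.M.bf_inf c x hx r {r, a} ({r} ∪ (S : Set (Fin k)))
          (Or.inl rfl) (Or.inl rfl) e (h a ha) ih
        have h2 : ({r, a} ∪ ({r} ∪ (S : Set (Fin k))) : Set (Fin k)) =
            {r} ∪ ((insert a S : Finset (Fin k)) : Set (Fin k)) := by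
          ext q
          simp only [Set.mem_union, Set.mem_insert_iff, Set.mem_singleton_iff, Finset.coe_insert,
            Finset.mem_coe]
          tauto
        rwa [h2] at h1
  have h1 := key Finset.univ
  rwa [Finset.coe_univ, Set.union_univ, bf_univ] at h1

theorem fg_of_full (c : Tx N d → K) (x : Pt N E) (hx : FullPt K c x) :
    (⊤ : IntermediateField K E).FG := by
  classical
  refine ⟨Finset.univ.image fun q : Σ r : Fin k, Fin (N r + 1) => x q.1 q.2, ?_⟩
  rw [← hx.top]
  unfold Bf
  congr 1
  ext y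
  simp only [Finset.coe_image, Finset.coe_univ, Set.image_univ, Set.mem_range, Set.mem_ofPred_eq,
    Set.mem_empty_iff_false, not_false_eq_true, true_and]
  constructor
  · rintro ⟨q, rfl⟩
    exact ⟨q.1, q.2, rfl⟩
  · rintro ⟨j, e, rfl⟩
    exact ⟨⟨j, e⟩, rfl⟩

theorem pd_of_full [NumberField K] (h : Ty N d) (hR : ∃ r, N r = l + 1)
    (c : Tx N d → K) (x : Pt N E) (hx : FullPt K c x)
    (hg : ∀ r, N r = l + 1 → IsGenusOne (Bf K x {r}))
    (hinv : ∀ s, N s = l → Bf K x {s} = ⊤ ∨ ∃ σ : E ≃ₐ[K] E,
      (∀ j, j ≠ s → ∀ i, σ (x j i) = x j i) ∧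
      ∀ r, N r = l + 1 → ∀ φ ∈ Bf K x {r}, σ φ ∈ Bf K x {r} → φ ∈ Bf K x {r, s})
    (hint : ∀ r j, N r = l + 1 → N j = l + 1 → j ≠ r → ∀ φ ∈ Bf K x {r}, φ ∈ Bf K x {j} →
      φ ∈ Bf K x {r, j})
    (A : Type) [CommRing A] [Algebra K A] [Algebra.FiniteType K A] (f : A →ₐ[K] E)
    (hf : Function.Injective f) :
    PotentiallyDense K (Spec (CommRingCat.of A))
      (Spec.map (CommRingCat.ofHom (algebraMap K A))) := by
  classical
  by_cases hT : ∃ s, N s = l ∧ Bf K x {s} = ⊤
  · obtain ⟨s, _, hs⟩ := hT
    refine pd_rational _ (hx.ind s) ?_ A f hf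
    rw [← hs, Helper97.M.bf_eq x hx.one s {s} rfl]
    congr 1
    ext y
    simp only [Set.mem_range, Set.mem_image, Set.mem_ofPred_eq, Set.mem_singleton_iff]
    constructor
    · rintro ⟨q, rfl⟩
      exact ⟨q, q.2, rfl⟩
    · rintro ⟨q, _, rfl⟩
      exact ⟨q, rfl⟩
  · push Not at hT
    obtain ⟨r, hr⟩ := hR
    have hinv' : ∀ s, ∃ σ : E ≃ₐ[K] E, N s = l → (∀ j, j ≠ s → ∀ i, σ (x j i) = x j i) ∧
        ∀ r, N r = l + 1 → ∀ φ ∈ Bf K x {r}, σ φ ∈ Bf K x {r} → φ ∈ Bf K x {r, s} := by
      intro s
      by_cases hs : N s = l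
      · rcases hinv s hs with h1 | ⟨σ, h1⟩
        · exact absurd h1 (hT s hs)
        · exact ⟨σ, fun _ => h1⟩
      · exact ⟨AlgEquiv.refl, fun h1 => absurd h1 hs⟩
    choose σ hσ using hinv'
    refine WE.main K E (fg_of_full c x hx) (fun j : Fin k => if N j = l then
      (Bf K x {r}).map ((σ j : E ≃ₐ[K] E) : E →ₐ[K] E) else Bf K x {j}) (fun j => Or.inr ?_)
      (fun e he => ?_) A f hf
    · by_cases hj : N j = l
      · rw [if_pos hj]
        exact Helper24.MP.isGenusOne_map (hg r hr) (σ j)
      · rw [if_neg hj]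
        exact hg j ((h.dim j).resolve_left hj)
    · have h0 : e ∈ Bf K x {r} := by
        have h1 := he r
        rwa [if_neg (by omega)] at h1
      have h1 := mem_bot_of_pairs c x hx r e h0 ?_
      · rw [IntermediateField.mem_bot] at h1
        obtain ⟨a, rfl⟩ := h1
        exact isAlgebraic_algebraMap a
      · intro j hjr
        have h2 := he j
        by_cases hj : N j = l
        · rw [if_pos hj] at h2
          obtain ⟨φ, hφ, rfl⟩ := h2
          obtain ⟨h3, h4⟩ := hσ j hj
          have h5 : φ ∈ Bf K x {r, j} := h4 r hr φ hφ h0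
          have h6 : (σ j) φ = φ := bf_fix x {r, j} (σ j)
            (fun q hq i => h3 q (fun hc => hq (Or.inr hc)) i) φ h5
          change (σ j) φ ∈ _
          rw [h6]
          exact h5
        · rw [if_neg hj] at h2
          exact hint r j hr ((h.dim j).resolve_left hj) hjr e h0 h2

end Pool.Agent.Helper47.M
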