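import Mathlib
import Pool.Agent.Helper47.M.Pd
import Pool.Agent.Helper88.M.Nice
import Pool.Agent.Helper15.GM.Genus
import Pool.Agent.Helper15.GM.Unq
import Pool.Agent.Helper77.M.Inv
import Pool.Agent.Helper28.M.P4
import Pool.Agent.Helper69.M.InterLe
import Pool.Agent.Helper37.M.Full
import Pool.Agent.Helper64.M.Dom
import Pool.Agent.Helper24.MP.Prim

/-!
# Theorem M: the main theorem in tensor coordinates
-/

set_option autoImplicit false

namespace Pool.Agent.Helper47.M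

open MvPolynomial AlgebraicGeometry CategoryTheory Pool.Agent Pool.Agent.Helper15
open Pool.Agent.Helper88.M (exists_nice)
open Pool.Agent.Helper15.GM (exists_genus exists_unq)
open Pool.Agent.Helper77.M (exists_inv)
open Pool.Agent.Helper28.M (inv_fixed)
open Pool.Agent.Helper69.M (inter_le)
open Pool.Agent.Helper37.M (full_of_dom)
open Pool.Agent.Helper64.M (exists_dom)

variable {k l : ℕ} {N : Fin k → ℕ} {d : Fin l → Fin k → ℕ}

/-- The involutions are trivial on the common functions. -/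
theorem inv_key {K E : Type} [Field K] [CharZero K] [Field E] [Algebra K E] (h : Ty N d)
    (c : Tx N d → K) (hc : AllNice K c) (x : Pt N E)
    (hx : FullPt K c x) (r s : Fin k) (hr : N r = l + 1) (hs : N s = l) (σ : E ≃ₐ[K] E)
    (hσ : ∀ j, j ≠ s → ∀ i, σ (x j i) = x j i) (hf : ∀ φ, σ φ = φ → φ ∈ Bf K x {s})
    (φ : E) (h1 : φ ∈ Bf K x {r}) (h2 : σ φ ∈ Bf K x {r}) : φ ∈ Bf K x {r, s} :=
  inter_le h c hc x hx r s hr (fun hc => by subst hc; omega) φ h1
    (hf φ (inv_fixed h c hc x hx r s hr hs σ hσ φ h1 h2))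

theorem good_of {K : Type} [Field K] [NumberField K] (h : Ty N d) (hR : ∃ r, N r = l + 1)
    (c : Tx N d → K) (hc : AllNice K c)
    (hg : ∀ (E : Type) [Field E] [Algebra K E] (x : Pt N E), FullPt K c x →
      ∀ r, N r = l + 1 → IsGenusOne (Bf K x {r})) : Good (idl c) (∑ r, N r - l) := by
  refine ⟨exists_dom h hR c hc, ?_⟩
  intro P hP X s _ hX
  have hprime : P.IsPrime := hP.prime
  have hx := full_of_dom h c P hP
  refine PotentiallyDense.of_birational K X _ s _ hX ?_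
  refine pd_of_full h hR c _ hx (fun r hr => ?_) (fun s hs => ?_) (fun r j hr _ hjr φ h3 h4 => ?_)
    (MvPolynomial (Vr N) K ⧸ P)
    (Algebra.algHom K (MvPolynomial (Vr N) K ⧸ P) (FractionRing (MvPolynomial (Vr N) K ⧸ P)))
    (IsFractionRing.injective _ _)
  · exact hg _ _ hx r hr
  · obtain ⟨r, hr⟩ := hR
    rcases exists_inv h c hc _ hx r hr s hs with h3 | ⟨σ, h3, h4, h5⟩
    · exact Or.inl h3
    · refine Or.inr ⟨σ, h3, fun r hr φ h6 h7 => ?_⟩
      exact inv_key h c hc _ hx r s hr hs σ h3 h5 φ h6 h7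
  · exact inter_le h c hc _ hx r j hr hjr φ h3 h4

/-- Theorem M in tensor coordinates. -/
theorem main (h : Ty N d) (hR : ∃ r, N r = l + 1) :
    ∃ Δ : MvPolynomial (Tx N d) ℚ, Δ ≠ 0 ∧ ∀ (K : Type) [Field K] [NumberField K]
      (c : Tx N d → K), aeval c Δ ≠ 0 →
        IsDom (idl c) (∑ r, N r - l) (idl c) ∧ Good (idl c) (∑ r, N r - l) := by
  obtain ⟨Δ₁, h₁, hn⟩ := exists_nice h
  obtain ⟨Δ₂, h₂, hg⟩ := exists_genus h
  obtain ⟨Δ₃, h₃, hp⟩ := Helper24.MP.exists_prime h hR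
    (fun K _ _ c hc => exists_dom h hR c hc) (exists_nice h) (fun r hr => exists_unq h r hr)
  refine ⟨Δ₁ * Δ₂ * Δ₃, mul_ne_zero (mul_ne_zero h₁ h₂) h₃, ?_⟩
  intro K _ _ c hc
  rw [map_mul, map_mul] at hc
  have hc12 := left_ne_zero_of_mul hc
  refine ⟨hp K c (right_ne_zero_of_mul hc), good_of h hR c (hn K c (left_ne_zero_of_mul hc12)) ?_⟩
  intro E _ _ x hx r hr
  exact hg K c (right_ne_zero_of_mul hc12) E x hx r hr

end Pool.Agent.Helper47.M
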