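import Mathlib
import Pool.Agent.Helper47.M.Defs
import Pool.Agent.Helper15.WE23

/-!
# Theorem M: the pieces (frames with sorry)

Proofs go to files of the owners, `Pool/Agent/Helper<nn>/M/...`, in the namespace of the owner, with
exactly these statements.  Do not import this file.
-/

set_option autoImplicit false

namespace Pool.Agent.Helper47.M.Pieces

open MvPolynomial AlgebraicGeometry CategoryTheory Pool.Agent.Helper15 Pool.Agent.Helper47.M

variable {k l : ℕ} {N : Fin k → ℕ} {d : Fin l → Fin k → ℕ}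

/-! ## Block A: tensors -/

section A

variable {e : Fin k → ℕ} {S S' : Type*} [CommRing S] [CommRing S']

theorem fv_map (f : S →+* S') (a : Tn N e → S) (x : Pt N S) :
    f (fv a x) = fv (fun m => f (a m)) (fun r i => f (x r i)) := by sorry
theorem dv_map (f : S →+* S') (a : Tn N e → S) (x : Pt N S) (j : Fin k) (b : Fin (N j + 1) → S) :
    f (dv a x j b) = dv (fun m => f (a m)) (fun r i => f (x r i)) j (fun i => f (b i)) := by sorry
theorem dv_add (a : Tn N e → S) (x : Pt N S) (j : Fin k) (b b' : Fin (N j + 1) → S) :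
    dv a x j (fun i => b i + b' i) = dv a x j b + dv a x j b' := by sorry
theorem dv_smul (a : Tn N e → S) (x : Pt N S) (j : Fin k) (u : S) (b : Fin (N j + 1) → S) :
    dv a x j (fun i => u * b i) = u * dv a x j b := by sorry
theorem dv_eq_sum (a : Tn N e → S) (x : Pt N S) (j : Fin k) (b : Fin (N j + 1) → S) :
    dv a x j b = ∑ i, b i * dv a x j (Pi.single i 1) := by sorry
theorem euler (a : Tn N e → S) (x : Pt N S) (j : Fin k) :
    dv a x j (x j) = (e j : S) * fv a x := by sorry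
theorem fv_scale (a : Tn N e → S) (x : Pt N S) (j : Fin k) (u : S) :
    fv a (Function.update x j fun i => u * x j i) = u ^ e j * fv a x := by sorry
theorem fv_one (a : Tn N e → S) (x : Pt N S) (j : Fin k) (h : e j = 1) (b : Fin (N j + 1) → S) :
    fv a (Function.update x j b) = dv a x j b := by sorry
theorem dv_one (a : Tn N e → S) (x : Pt N S) (j : Fin k) (h : e j = 1)
    (y b : Fin (N j + 1) → S) : dv a (Function.update x j y) j b = dv a x j b := by sorry
theorem fv_two (a : Tn N e → S) (x : Pt N S) (j : Fin k) (h : e j = 2) (u w : S)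
    (b : Fin (N j + 1) → S) :
    fv a (Function.update x j fun i => u * x j i + w * b i) =
      u ^ 2 * fv a x + u * w * dv a x j b + w ^ 2 * fv a (Function.update x j b) := by sorry
theorem dv_two (a : Tn N e → S) (x : Pt N S) (j : Fin k) (h : e j = 2)
    (y b : Fin (N j + 1) → S) :
    dv a (Function.update x j y) j b = dv a (Function.update x j b) j y := by sorry
theorem dv_scale (a : Tn N e → S) (x : Pt N S) (r j : Fin k) (h : r ≠ j) (u : S)
    (b : Fin (N j + 1) → S) :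
    dv a (Function.update x r fun i => u * x r i) j b = u ^ e r * dv a x j b := by sorry
/-- Homogeneity in the coordinates of the factor `r`. -/
theorem fv_hom {σ : Type*} (a : Tn N e → MvPolynomial σ S) (ha : ∀ m, (a m).IsHomogeneous 0)
    (x : Pt N (MvPolynomial σ S)) (r : Fin k) (hr : ∀ i, (x r i).IsHomogeneous 1)
    (hx : ∀ j, j ≠ r → ∀ i, (x j i).IsHomogeneous 0) : (fv a x).IsHomogeneous (e r) := by sorry
theorem dv_hom {σ : Type*} (a : Tn N e → MvPolynomial σ S) (ha : ∀ m, (a m).IsHomogeneous 0)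
    (x : Pt N (MvPolynomial σ S)) (r : Fin k) (hr : ∀ i, (x r i).IsHomogeneous 1)
    (hx : ∀ j, j ≠ r → ∀ i, (x j i).IsHomogeneous 0) (j : Fin k) (hj : j ≠ r)
    (b : Fin (N j + 1) → MvPolynomial σ S) (hb : ∀ i, (b i).IsHomogeneous 0) :
    (dv a x j b).IsHomogeneous (e r) := by sorry
/-- The chain rule for a derivation which kills the coefficients. -/
theorem fv_der {R : Type*} [CommRing R] [Algebra R S] (D : Derivation R S S) (a : Tn N e → S)
    (ha : ∀ m, D (a m) = 0) (x : Pt N S) :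
    D (fv a x) = ∑ j, dv a x j fun i => D (x j i) := by sorry

/-- A tensor with a given value and given derivatives at `x` in the factor `j`. -/
theorem exists_tensor {K : Type*} [Field K] (he : ∀ r, 0 < e r) (x : Pt N K) (hx : ∀ r, x r ≠ 0)
    (j : Fin k) (e0 : Fin (N j + 1)) (h0 : x j e0 ≠ 0) (α : K) (γ : Fin (N j + 1) → K) :
    ∃ a : Tn N e → K, fv a x = α ∧ ∀ b, b e0 = 0 → dv a x j b = ∑ i, γ i * b i := by sorry
theorem exists_tensor1 {K : Type*} [Field K] (he : ∀ r, 0 < e r) (x : Pt N K) (hx : ∀ r, x r ≠ 0)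
    (j : Fin k) (b : Fin (N j + 1) → K)
    (hb : ∀ u w : K, (∀ i, u * x j i + w * b i = 0) → u = 0 ∧ w = 0) (α β : K) :
    ∃ a : Tn N e → K, fv a x = α ∧ dv a x j b = β := by sorry
theorem exists_tensor2 {K : Type*} [Field K] (he : ∀ r, 0 < e r) (x : Pt N K) (hx : ∀ r, x r ≠ 0)
    (j : Fin k) (hj : e j = 2) (b : Fin (N j + 1) → K)
    (hb : ∀ u w : K, (∀ i, u * x j i + w * b i = 0) → u = 0 ∧ w = 0) (α β γ : K) :
    ∃ a : Tn N e → K, fv a x = α ∧ dv a x j b = β ∧ fv a (Function.update x j b) = γ := by sorry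

end A

/-! ## Block B: general lemmas on genericity -/

section B

/-- If the equations `G` never hold at points with `(c, w)` independent over `ℚ`, then for general
`c` over any field they never hold at points with `w` independent over that field. Proof: some
prime of `ℚ[c, w, v] / (G)` over `0` of `ℚ[c, w]` would give a point; so the ideal `(G)` contains
a nonzero polynomial in `c, w`; `Δ` = one of its nonzero coefficients. -/
theorem spread {ι κ ν : Type} (G : Set (MvPolynomial (ι ⊕ (κ ⊕ ν)) ℚ))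
    (h : ∀ (Ω : Type) [Field Ω] [CharZero Ω] (c : ι → Ω) (w : κ → Ω) (v : ν → Ω),
      (∀ g ∈ G, aeval (Sum.elim c (Sum.elim w v)) g = 0) →
        ¬ AlgebraicIndependent ℚ (Sum.elim c w)) :
    ∃ Δ : MvPolynomial ι ℚ, Δ ≠ 0 ∧ ∀ (K : Type) [Field K] [CharZero K] (c : ι → K),
      aeval c Δ ≠ 0 → ∀ (Ω : Type) [Field Ω] [CharZero Ω] [Algebra K Ω] (w : κ → Ω) (v : ν → Ω),
        AlgebraicIndependent K w →
          ¬ ∀ g ∈ G, aeval (Sum.elim (fun i => algebraMap K Ω (c i)) (Sum.elim w v)) g = 0 := by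
  sorry

/-- Dimension count: independent linear equations for `c` with coefficients in `ℚ(w, v)`. -/
theorem count {Ω : Type} [Field Ω] [CharZero Ω] {ι κ ν U : Type} [Fintype ι] [Fintype κ]
    [Fintype ν] [Fintype U] (c : ι → Ω) (w : κ → Ω) (v : ν → Ω)
    (hind : AlgebraicIndependent ℚ (Sum.elim c w)) (T : U → ι → Ω)
    (hT : ∀ u e, T u e ∈ IntermediateField.adjoin ℚ (Set.range w ∪ Set.range v))
    (hs : ∀ t : U → Ω, ∃ c' : ι → Ω, ∀ u, ∑ e, T u e * c' e = t u)
    (h0 : ∀ u, ∑ e, T u e * c e = 0) : Fintype.card U ≤ Fintype.card ν := by sorry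

end B

/-! ## Block J: general coefficients are nice -/

section J

theorem nice0 (h : Ty N d) (r : Fin k) (hr : N r = l + 1) :
    ∃ Δ : MvPolynomial (Tx N d) ℚ, Δ ≠ 0 ∧ ∀ (K : Type) [Field K] [CharZero K] (c : Tx N d → K),
      aeval c Δ ≠ 0 → ∀ (Ω : Type) [Field Ω] [Algebra K Ω] (x : Pt N Ω), GenPt K c r x →
        ¬ (x r 0 = 0 ∧ x r 1 = 0) := by sorry
theorem nice1 (h : Ty N d) (r : Fin k) (hr : N r = l + 1) (j : Fin k) (hj : N j = l + 1) :
    ∃ Δ : MvPolynomial (Tx N d) ℚ, Δ ≠ 0 ∧ ∀ (K : Type) [Field K] [CharZero K] (c : Tx N d → K),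
      aeval c Δ ≠ 0 → ∀ (Ω : Type) [Field Ω] [Algebra K Ω] (x : Pt N Ω), GenPt K c r x →
        ∀ lam : Fin l → Ω,
          (∀ b, ∑ i, lam i * dF (fun e => algebraMap K Ω (c e)) x j b i = 0) → lam = 0 := by sorry
theorem nice2 (h : Ty N d) (r : Fin k) (hr : N r = l + 1) (j : Fin k) (hj : N j = l)
    (i0 : Fin l) (hi : d i0 j = 2) :
    ∃ Δ : MvPolynomial (Tx N d) ℚ, Δ ≠ 0 ∧ ∀ (K : Type) [Field K] [CharZero K] (c : Tx N d → K),
      aeval c Δ ≠ 0 → ∀ (Ω : Type) [Field Ω] [Algebra K Ω] (x : Pt N Ω), GenPt K c r x →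
        ∀ lam : Fin l → Ω, lam i0 = 0 →
          (∀ b, ∑ i, lam i * dF (fun e => algebraMap K Ω (c e)) x j b i = 0) → lam = 0 := by sorry
theorem nice3 (h : Ty N d) (r : Fin k) (hr : N r = l + 1) (j : Fin k) (hj : N j = l)
    (i0 : Fin l) (hi : d i0 j = 2) :
    ∃ Δ : MvPolynomial (Tx N d) ℚ, Δ ≠ 0 ∧ ∀ (K : Type) [Field K] [CharZero K] (c : Tx N d → K),
      aeval c Δ ≠ 0 → ∀ (Ω : Type) [Field Ω] [Algebra K Ω] (x : Pt N Ω), GenPt K c r x →
        ∀ b : Fin (N j + 1) → Ω, b 0 = 0 →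
          (∀ i, dF (fun e => algebraMap K Ω (c e)) x j b i = 0) →
          Fm (fun e => algebraMap K Ω (c e)) (Function.update x j b) i0 = 0 → b = 0 := by sorry
theorem exists_nice (h : Ty N d) :
    ∃ Δ : MvPolynomial (Tx N d) ℚ, Δ ≠ 0 ∧ ∀ (K : Type) [Field K] [CharZero K] (c : Tx N d → K),
      aeval c Δ ≠ 0 → AllNice K c := by sorry

end J

/-! ## Block T: fibres over the other factors (derivations) -/

section T

variable {K Ω : Type} [Field K] [CharZero K] [Field Ω] [Algebra K Ω]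

theorem exists_two (h : Ty N d) (j : Fin k) (hj : N j = l) :
    ∃ i0, d i0 j = 2 ∧ ∀ i, i ≠ i0 → d i j = 1 := by sorry
theorem alg_of_nice (h : Ty N d) (c : Tx N d → K) (x : Pt N Ω)
    (hx : ∀ i, Fm (fun e => algebraMap K Ω (c e)) x i = 0)
    (hn : Nice (fun e => algebraMap K Ω (c e)) x) (j : Fin k) (hj : N j = l) (h1 : x j 0 = 1) :
    ∀ i, IsAlgebraic (Bf K x {j}) (x j i) := by sorry
theorem dep_of_nice (h : Ty N d) (c : Tx N d → K) (x : Pt N Ω)
    (hx : ∀ i, Fm (fun e => algebraMap K Ω (c e)) x i = 0)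
    (hn : Nice (fun e => algebraMap K Ω (c e)) x) (j : Fin k) (hj : N j = l + 1)
    (h1 : x j 0 = 1) :
    ∀ i i', ¬ AlgebraicIndependent (Bf K x {j}) ![x j i, x j i'] := by sorry

end T

/-! ## Block P: places -/

section P

variable {K E : Type} [Field K] [Field E] [Algebra K E]

variable {B : IntermediateField K E} {R : Type} [Field R] [Algebra K R]

/-- Normalization of a vector. -/
theorem place_scale (v : Place B R) {n : ℕ} (y : Fin n → E) (hy : y ≠ 0) :
    ∃ u : E, u ≠ 0 ∧ (∀ i, u * y i ∈ v.O) ∧ ∃ i, u * y i = 1 := by sorry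

/-- There is a place with a zero of the form `p`. Proof: otherwise `ξ i ^ δ / p(ξ)` is in all
valuation rings which contain `B` (`iInf_valuationSubring_superset`), so it is algebraic over `B`.
If `p(ξ) = 0` take `O = ⊤`. -/
theorem exists_place (B : IntermediateField K E) {n : ℕ} (ξ : Fin n → E)
    (htr : ∃ i j, ξ j ≠ 0 ∧ Transcendental B (ξ i / ξ j)) (p : MvPolynomial (Fin n) B) (δ : ℕ)
    (hδ : 0 < δ) (hp : p.IsHomogeneous δ) :
    ∃ (R : Type) (_ : Field R) (_ : Algebra K R) (v : Place B R) (u : E), u ≠ 0 ∧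
      (∀ i, u * ξ i ∈ v.O) ∧ (∃ i, u * ξ i = 1) ∧
      eval₂ v.res (fun i => v.red (u * ξ i)) p = 0 := by sorry

/-- The point of the residue field. -/
theorem genPt_red (c : Tx N d → K) (x : Pt N E) (hx : FullPt K c x) (r : Fin k)
    (v : Place (Bf K x {r}) R) (u : E) (hu : u ≠ 0) (h1 : ∀ i, u * x r i ∈ v.O)
    (h2 : ∃ i, u * x r i = 1) :
    GenPt K c r (Function.update (fun j i => v.red (x j i)) r fun i => v.red (u * x r i)) := by
  sorry

/-- The involutions are trivial on the common functions. -/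
theorem inv_key [CharZero K] (h : Ty N d) (c : Tx N d → K) (hc : AllNice K c) (x : Pt N E)
    (hx : FullPt K c x) (r s : Fin k) (hr : N r = l + 1) (hs : N s = l) (σ : E ≃ₐ[K] E)
    (hσ : ∀ j, j ≠ s → ∀ i, σ (x j i) = x j i) (φ : E) (h1 : φ ∈ Bf K x {r})
    (h2 : σ φ ∈ Bf K x {r}) : φ ∈ Bf K x {r, s} := by sorry
theorem inv_fixed [CharZero K] (h : Ty N d) (c : Tx N d → K) (hc : AllNice K c) (x : Pt N E)
    (hx : FullPt K c x) (r s : Fin k) (hr : N r = l + 1) (hs : N s = l) (σ : E ≃ₐ[K] E)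
    (hσ : ∀ j, j ≠ s → ∀ i, σ (x j i) = x j i) (φ : E) (h1 : φ ∈ Bf K x {r})
    (h2 : σ φ ∈ Bf K x {r}) : σ φ = φ := by sorry

/-- Two coprime polynomials in `n` variables: the common zeros have small degree. -/
theorem dep_of_coprime {M Ω : Type} [Field M] [Field Ω] [Algebra M Ω] {n : ℕ}
    (p q : MvPolynomial (Fin n) M) (hpq : IsRelPrime p q) (z : Fin n → Ω) (hp : aeval z p = 0)
    (hq : aeval z q = 0) (i : Fin n) :
    ¬ AlgebraicIndependent M (fun j : {j : Fin n // j ≠ i} => z j) := by sorry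

/-- Common functions of two projections. -/
theorem inter_le [CharZero K] (h : Ty N d) (c : Tx N d → K) (hc : AllNice K c) (x : Pt N E)
    (hx : FullPt K c x) (r j : Fin k) (hr : N r = l + 1) (hj : j ≠ r) (φ : E)
    (h1 : φ ∈ Bf K x {r}) (h2 : φ ∈ Bf K x {j}) : φ ∈ Bf K x {r, j} := by sorry

end P

/-! ## Block H: curves of genus one (helper15's `fib3`, `fib22`) -/

section H

theorem exists_genus (h : Ty N d) :
    ∃ Δ : MvPolynomial (Tx N d) ℚ, Δ ≠ 0 ∧ ∀ (K : Type) [Field K] [CharZero K] (c : Tx N d → K),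
      aeval c Δ ≠ 0 → ∀ (E : Type) [Field E] [Algebra K E] (x : Pt N E), FullPt K c x →
        ∀ r, N r = l + 1 → IsGenusOne (Bf K x {r}) := by sorry

end H

/-! ## Block K: assembly -/

section K

theorem isGenusOne_map {K E : Type} [Field K] [Field E] [Algebra K E] (σ : E ≃ₐ[K] E)
    (B : IntermediateField K E) (h : IsGenusOne B) :
    IsGenusOne (B.map (σ : E →ₐ[K] E)) := by sorry

theorem adjoin_inf {K E ι : Type} [Field K] [Field E] [Algebra K E] (v : ι → E)
    (hv : AlgebraicIndependent K v) (A B : Set ι) (y : E)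
    (hA : y ∈ IntermediateField.adjoin K (v '' A)) (hB : y ∈ IntermediateField.adjoin K (v '' B)) :
    y ∈ IntermediateField.adjoin K (v '' (A ∩ B)) := by sorry

variable {K E : Type} [Field K] [Field E] [Algebra K E]

theorem bf_inf (c : Tx N d → K) (x : Pt N E) (hx : FullPt K c x) (r : Fin k) (J J' : Set (Fin k))
    (h : r ∈ J) (h' : r ∈ J') (y : E) (h1 : y ∈ Bf K x J) (h2 : y ∈ Bf K x J') :
    y ∈ Bf K x (J ∪ J') := by sorry

theorem exists_inv [CharZero K] (h : Ty N d) (c : Tx N d → K) (hc : AllNice K c) (x : Pt N E)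
    (hx : FullPt K c x) (r : Fin k) (hr : N r = l + 1) (s : Fin k) (hs : N s = l) :
    Bf K x {s} = ⊤ ∨ ∃ σ : E ≃ₐ[K] E, (∀ j, j ≠ s → ∀ i, σ (x j i) = x j i) ∧
      (∀ φ, σ (σ φ) = φ) ∧ ∀ φ, σ φ = φ → φ ∈ Bf K x {s} := by sorry

theorem pd_of_full [NumberField K] (hk : 2 ≤ k) (h : Ty N d) (hR : ∃ r, N r = l + 1)
    (c : Tx N d → K) (x : Pt N E) (hx : FullPt K c x)
    (hg : ∀ r, N r = l + 1 → IsGenusOne (Bf K x {r}))
    (hinv : ∀ s, N s = l → Bf K x {s} = ⊤ ∨ ∃ σ : E ≃ₐ[K] E,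
      (∀ j, j ≠ s → ∀ i, σ (x j i) = x j i) ∧
      ∀ r, N r = l + 1 → ∀ φ ∈ Bf K x {r}, σ φ ∈ Bf K x {r} → φ ∈ Bf K x {r, s})
    (hint : ∀ r j, N r = l + 1 → N j = l + 1 → j ≠ r → ∀ φ ∈ Bf K x {r}, φ ∈ Bf K x {j} →
      φ ∈ Bf K x {r, j})
    (A : Type) [CommRing A] [Algebra K A] [Algebra.FiniteType K A] (f : A →ₐ[K] E)
    (hf : Function.Injective f) (X : Scheme.{0}) (s : X ⟶ Spec (CommRingCat.of K))
    [IrreducibleSpace X]
    (hX : BirationalOver K X (Spec (CommRingCat.of A)) s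
      (Spec.map (CommRingCat.ofHom (algebraMap K A)))) : PotentiallyDense K X s := by sorry

theorem full_of_dom [CharZero K] (h : Ty N d) (c : Tx N d → K) (P : Ideal (MvPolynomial (Vr N) K))
    (hP : IsDom (idl c) (∑ r, N r - l) P) [P.IsPrime] :
    FullPt K c (fun r i => algebraMap (MvPolynomial (Vr N) K ⧸ P)
      (FractionRing (MvPolynomial (Vr N) K ⧸ P)) (Ideal.Quotient.mk P (ch K N r i))) := by sorry

theorem exists_dom [CharZero K] (h : Ty N d) (hR : ∃ r, N r = l + 1) (c : Tx N d → K)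
    (hc : AllNice K c) : ∃ P, IsDom (idl c) (∑ r, N r - l) P := by sorry

theorem main (hk : 2 ≤ k) (h : Ty N d) (hR : ∃ r, N r = l + 1) :
    ∃ Δ : MvPolynomial (Tx N d) ℚ, Δ ≠ 0 ∧ ∀ (K : Type) [Field K] [NumberField K]
      (c : Tx N d → K), aeval c Δ ≠ 0 → Good (idl c) (∑ r, N r - l) := by sorry

end K

/-! ## Block L: natural coordinates (`Mono`, `form`, `ideal` are in Defs) -/

section L

theorem natural (hk : 2 ≤ k) (h : Ty N d) (hR : ∃ r, N r = l + 1) :
    ∃ Δ : MvPolynomial (Σ i, Mono N (d i)) ℚ, Δ ≠ 0 ∧ ∀ (K : Type) [Field K] [NumberField K]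
      (a : (Σ i, Mono N (d i)) → K), aeval a Δ ≠ 0 → Good (ideal d a) (∑ r, N r - l) := by sorry

end L

end Pool.Agent.Helper47.M.Pieces
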